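import Pool.Agent.Results.MP_a3214d_nt.NormOneSemidirect

/-!
# The extensions of degree `d` with Galois group `C₂ ≀ H` for the groups `H` of a large class of towers

For a finite group `Γ` acting on a finite group `A` the group `N ⋊ Γ` is `NormOneBy φ n`: `N` is the subgroup of the
`(f, σ)` in `A ≀ S_n` with `∏ [f i] = 1` in the abelianization of `A`. `Tower` is the smallest class of groups which
contains the trivial group and is closed under the steps `Γ ↦ N ⋊ Γ`, `n ≥ ((3 |A| + 2)!) ^ 3`, and under quotients.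
All its members are Galois groups over all number fields. For `H = N ⋊ Γ`, with `Γ` in this class and
`n ≥ ((3 |A| |Γ| + 2)!) ^ 3`, and for `G = C₂ ≀ H`, a transitive group of degree `d = 2 |H|`, the number
`N_{d,K}(X; G)` of the extensions `L` of `K` in the algebraic closure, of degree `d`, with group `G` and with a relative
discriminant of norm at most `X`, is asymptotic to `c X` with `c > 0`, for EVERY number field `K`.

Definitions used from the file `Results/MP_a3214d_nt/NormOneSemidirect.lean`: `NormOneBy`, `IsGaloisGroupOver`,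
`IsC2Wreath` and `Ext` (the set of these extensions `L`, as subfields of the algebraic closure).
-/

set_option autoImplicit false

open Filter
open Pool.Agent.Results.MP_a3214d_nt.NormOneSemidirect (NormOneBy IsGaloisGroupOver IsC2Wreath Ext)

namespace Pool.Agent.Results.MP_bf81c2_nt.NormOneTowers

/-- The class of groups: the trivial group; `N ⋊ Γ` for `Γ` in the class; quotients (and isomorphic copies). -/
inductive Tower : (Γ : Type) → Group Γ → Prop
  | triv : Tower Unit inferInstance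
  | step (Γ : Type) (iΓ : Group Γ) (A : Type) [Group A] [Finite A] (φ : Γ →* MulAut A) (n : ℕ) :
      Tower Γ iΓ → ((3 * Nat.card A + 2).factorial) ^ 3 ≤ n → Tower (NormOneBy φ n) inferInstance
  | quot (Γ Δ : Type) (iΓ : Group Γ) (iΔ : Group Δ) (f : Γ →* Δ) :
      Function.Surjective f → Tower Γ iΓ → Tower Δ iΔ

/-- the members of the class are finite, and Galois groups over all number fields -/
theorem real_tower (Γ : Type) (iΓ : Group Γ) (h : Tower Γ iΓ) :
    Finite Γ ∧ ∀ (K : Type) [Field K] [NumberField K], Nfff32c05.IsRealizable K Γ := by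
  induction h with
  | triv =>
    exact ⟨inferInstance, fun K _ _ =>
      Pool.Agent.H391R2.isRealizable_quotient (K := K) (G := Unit) K (1 : (K ≃ₐ[K] K) →* Unit) fun _ => ⟨1, rfl⟩⟩
  | step Γ iΓ A φ n _ hn ih =>
    have hf : Finite Γ := ih.1
    exact ⟨Pool.Agent.R70.MA.finite_no φ n, fun K _ _ =>
      Pool.Agent.R367.IG.real_no K (Pool.Agent.H391R2.T4.hilb_numberField K) Γ (ih.2 K) A φ n hn⟩
  | quot Γ Δ iΓ iΔ f hf _ ih =>
    have hfin : Finite Γ := ih.1
    refine ⟨Finite.of_surjective f hf, fun K _ _ => ?_⟩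
    obtain ⟨L, i1, i2, i3, i4, ⟨e⟩⟩ := Pool.Agent.TH59.WX.exists_gal_of K Γ (ih.2 K)
    exact Pool.Agent.H391R2.isRealizable_quotient (K := K) (G := Δ) L (f.comp e.symm.toMonoidHom)
      (hf.comp e.symm.surjective)

/-- the count of the subfields of the algebraic closure -/
theorem of_data (K : Type) [Field K] [NumberField K] (H : Type) [Group H] [Finite H]
    (h2 : 2 ≤ Nat.card H) (U : Subgroup H) (hU : U.normalCore = ⊥)
    (hc : 8 * U.index * (U.index + 1) ≤ Nat.card H)
    (hne : (Pool.Agent.TH444.ML.Gal K (AlgebraicClosure K) H).Nonempty) (d : ℕ)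
    (G : Subgroup (Equiv.Perm (Fin d))) (hG : IsC2Wreath H G) :
    (∀ X : ℝ, 0 < X → (Ext K d G X).Finite) ∧ ∃ c : ℝ, 0 < c ∧
      Tendsto (fun X : ℝ => ((Ext K d G X).ncard : ℝ) / X) atTop (nhds c) :=
  Pool.Agent.TH444.ML.asymp Pool.Agent.TH444.ML.rest K H h2 U hU hc hne G hG

/-- the last step -/
theorem last_step (K : Type) [Field K] [NumberField K] (Γ : Type) [Group Γ] [Finite Γ]
    (hΓ : Nfff32c05.IsRealizable K Γ) (A : Type) [Group A] [Finite A] (φ : Γ →* MulAut A) (n : ℕ)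
    (hn : ((3 * (Nat.card A * Nat.card Γ) + 2).factorial) ^ 3 ≤ n) (d : ℕ)
    (G : Subgroup (Equiv.Perm (Fin d))) (hG : IsC2Wreath (NormOneBy φ n) G) :
    (∀ X : ℝ, 0 < X → (Ext K d G X).Finite) ∧ ∃ c : ℝ, 0 < c ∧
      Tendsto (fun X : ℝ => ((Ext K d G X).ncard : ℝ) / X) atTop (nhds c) := by
  have hf : Finite (NormOneBy φ n) := Pool.Agent.R70.MA.finite_no φ n
  obtain ⟨U, hU, hc⟩ := Pool.Agent.R70.MA.small φ n hn
  exact @of_data K _ _ (NormOneBy φ n) _ hf (Pool.Agent.R70.MA.two_le_card hc) U hU hc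
    (Pool.Agent.R70.MA.gal_no φ n K hΓ (Pool.Agent.R70.MA.bound_mono n hn)) d G hG

/-- (1) The members `Γ` of the class `Tower` are Galois groups over all number fields, and for every finite group `A`
with any action of `Γ`, all `n ≥ ((3 |A| |Γ| + 2)!) ^ 3`, `H = N ⋊ Γ` and `G = C₂ ≀ H` (of degree `d`) the number
`N_{d,K}(X; G)` is asymptotic to `c X`, `c > 0`, for EVERY number field `K`. (2) The same holds over one number field `K`
for every Galois group `Γ` over `K`. (3) The groups `C₂ ≀ H` exist and are transitive, of degree `2 |H|`. -/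
theorem result :
    (∀ (Γ : Type) (iΓ : Group Γ), Tower Γ iΓ → Finite Γ ∧
      (∀ (K : Type) [Field K] [NumberField K], IsGaloisGroupOver K Γ) ∧
      ∀ (A : Type) [Group A] [Finite A] (φ : Γ →* MulAut A) (n : ℕ),
        ((3 * (Nat.card A * Nat.card Γ) + 2).factorial) ^ 3 ≤ n →
        ∀ (d : ℕ) (G : Subgroup (Equiv.Perm (Fin d))), IsC2Wreath (NormOneBy φ n) G →
        ∀ (K : Type) [Field K] [NumberField K],
          (∀ X : ℝ, 0 < X → (Ext K d G X).Finite) ∧ ∃ c : ℝ, 0 < c ∧
            Tendsto (fun X : ℝ => ((Ext K d G X).ncard : ℝ) / X) atTop (nhds c)) ∧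
    (∀ (K : Type) [Field K] [NumberField K] (Γ : Type) [Group Γ] [Finite Γ], IsGaloisGroupOver K Γ →
      ∀ (A : Type) [Group A] [Finite A] (φ : Γ →* MulAut A) (n : ℕ),
        ((3 * (Nat.card A * Nat.card Γ) + 2).factorial) ^ 3 ≤ n →
        ∀ (d : ℕ) (G : Subgroup (Equiv.Perm (Fin d))), IsC2Wreath (NormOneBy φ n) G →
          (∀ X : ℝ, 0 < X → (Ext K d G X).Finite) ∧ ∃ c : ℝ, 0 < c ∧
            Tendsto (fun X : ℝ => ((Ext K d G X).ncard : ℝ) / X) atTop (nhds c)) ∧
    (∀ (H : Type) [Group H] [Finite H], ∃ (d : ℕ) (G : Subgroup (Equiv.Perm (Fin d))),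
      d = 2 * Nat.card H ∧ IsC2Wreath H G ∧ ∀ i j : Fin d, ∃ g ∈ G, g i = j) := by
  refine ⟨fun Γ iΓ hT => ?_, fun K _ _ Γ _ _ hΓ A _ _ φ n hn d G hG => ?_, fun H _ _ =>
    Pool.Agent.Results.MP_a3214d_nt.NormOneSemidirect.exists_group H⟩
  · obtain ⟨hfin, hreal⟩ := real_tower Γ iΓ hT
    refine ⟨hfin, fun K _ _ => ?_, fun A _ _ φ n hn d G hG K _ _ => last_step K Γ (hreal K) A φ n hn d G hG⟩
    obtain ⟨⟨⟨L, i1, i2, i3, e⟩⟩⟩ := hreal K
    exact ⟨L, i1, i2, i3, ⟨e⟩⟩
  · obtain ⟨L, i1, i2, i3, ⟨e⟩⟩ := hΓ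
    exact last_step K Γ ⟨⟨⟨L, i1, i2, i3, e⟩⟩⟩ A φ n hn d G hG

end Pool.Agent.Results.MP_bf81c2_nt.NormOneTowers
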